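import Pool.Agent.W374.CB.Norm

/-!
# The base game
-/

namespace Pool.Agent.W374.CBN
open Set Pool.Agent.W919.CB

section
variable (m : Bool) (L : LO)

theorem base_tO (γ : Ordinal.{0}) : (base m L).AliveO γ .tO := by
  induction γ using WellFoundedLT.induction with
  | ind γ ih =>
    refine (aliveO_iff (base m L) γ .tO).2 fun δ hδ => ⟨.tA, trivial, ?_⟩
    intro τ hτ
    match τ, hτ with
    | .tO, _ => exact ih δ hδ

theorem base_tA (γ : Ordinal.{0}) : (base m L).AliveA γ .tA := by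
  intro τ hτ
  match τ, hτ with
  | .tO, _ => exact base_tO m L γ

theorem base_C_tO (p : BA) : (base m L).C p .tO := by
  cases p <;> trivial

theorem base_sing (γ : Ordinal.{0}) (σ : BO) :
    (base m L).AliveA γ (.sing σ) ↔ (base m L).AliveO γ σ := by
  constructor
  · intro h
    refine h σ ?_
    cases σ <;> first | rfl | trivial
  · intro h τ hτ
    match τ, hτ with
    | .tO, _ => exact base_tO m L γ
    | .iso X Y s p, hτ => 
      have : BO.iso X Y s p = σ := hτ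
      rw [← this] at h
      exact h
    | .oml u z x y, hτ => 
      have : BO.oml u z x y = σ := hτ
      rw [← this] at h
      exact h
    | .omr u z x y, hτ => 
      have : BO.omr u z x y = σ := hτ
      rw [← this] at h
      exact h
    | .dead, hτ => 
      have : BO.dead = σ := hτ
      rw [← this] at h
      exact h

theorem base_dead (q : BA) : ¬ (base m L).R .dead q := by
  intro h
  cases q <;> exact h

theorem t_basegood : StBaseGood := by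
  intro m L
  exact
    { ne := fun p => ⟨.tO, base_C_tO m L p⟩
      sing := fun σ => ⟨.sing σ, fun γ => base_sing m L γ σ⟩
      top := ⟨.tA, fun γ => base_tA m L γ⟩
      dead := ⟨.dead, base_dead m L⟩ }

theorem EF_iff {α β : Type} [LinearOrder α] [LinearOrder β] (γ : Ordinal.{0}) (S : Set α)
    (T : Set β) : EF γ S T ↔ ∀ δ < γ,
    (∀ a ∈ S, ∃ b ∈ T, EF δ (S ∩ Iio a) (T ∩ Iio b) ∧ EF δ (S ∩ Ioi a) (T ∩ Ioi b)) ∧
    (∀ b ∈ T, ∃ a ∈ S, EF δ (S ∩ Iio a) (T ∩ Iio b) ∧ EF δ (S ∩ Ioi a) (T ∩ Ioi b)) := by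
  rw [EF]

theorem lt_trans' {a b c : ℕ} (h1 : L.lt a b) (h2 : L.lt b c) : L.lt a c :=
  lt_trans (α := Ty L) h1 h2

theorem iv_left (X : Iv) (p : ℕ) (hp : L.mem X p) :
    L.iv X ∩ Iio (α := Ty L) p = L.iv (X.1, some p) := by
  ext q
  constructor
  · rintro ⟨h1, h2⟩
    refine ⟨h1.1, fun b hb => ?_⟩
    cases hb
    exact h2
  · rintro ⟨h1, h2⟩
    refine ⟨⟨h1, fun b hb => ?_⟩, h2 p rfl⟩
    exact lt_trans' L (h2 p rfl) (hp.2 b hb)

theorem iv_right (X : Iv) (p : ℕ) (hp : L.mem X p) :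
    L.iv X ∩ Ioi (α := Ty L) p = L.iv (some p, X.2) := by
  ext q
  constructor
  · rintro ⟨h1, h2⟩
    refine ⟨fun b hb => ?_, h1.2⟩
    cases hb
    exact h2
  · rintro ⟨h1, h2⟩
    refine ⟨⟨fun b hb => ?_, h2⟩, h1 p rfl⟩
    exact lt_trans' L (hp.1 b hb) (h1 p rfl)

theorem EF_iv (γ : Ordinal.{0}) (X Y : Iv) : EF γ (L.iv X) (L.iv Y) ↔ ∀ δ < γ,
    (∀ a : ℕ, L.mem X a → ∃ b : ℕ, L.mem Y b ∧ EF δ (L.iv (X.1, some a)) (L.iv (Y.1, some b)) ∧
      EF δ (L.iv (some a, X.2)) (L.iv (some b, Y.2))) ∧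
    (∀ b : ℕ, L.mem Y b → ∃ a : ℕ, L.mem X a ∧ EF δ (L.iv (X.1, some a)) (L.iv (Y.1, some b)) ∧
      EF δ (L.iv (some a, X.2)) (L.iv (some b, Y.2))) := by
  rw [EF_iff]
  refine forall₂_congr fun δ _ => and_congr ?_ ?_
  · refine forall₂_congr fun a ha => exists_congr fun b => and_congr_right fun hb => ?_
    rw [iv_left L X a ha, iv_left L Y b hb, iv_right L X a ha, iv_right L Y b hb]
  · refine forall₂_congr fun b hb => exists_congr fun a => and_congr_right fun ha => ?_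
    rw [iv_left L X a ha, iv_left L Y b hb, iv_right L X a ha, iv_right L Y b hb]

variable {m} in
theorem okIv_left {X : Iv} (h : okIv m X) (p : ℕ) : okIv m (X.1, some p) :=
  ⟨h.1, Or.inr (by simp)⟩

variable {m} in
theorem okIv_right {X : Iv} (h : okIv m X) (p : ℕ) : okIv m (some p, X.2) :=
  ⟨by simp, h.2⟩

theorem iso_true_iff (γ : Ordinal.{0}) {X Y : Iv} (hX : okIv m X) (hY : okIv m Y) {p : ℕ}
    (hp : L.mem X p) : (base m L).AliveO γ (.iso X Y true p) ↔ ∀ δ < γ, ∃ b : ℕ, L.mem Y b ∧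
      (base m L).AliveA δ (.Q (X.1, some p) (Y.1, some b) (some p, X.2) (some b, Y.2)) := by
  refine (aliveO_iff (base m L) γ (.iso X Y true p)).trans (forall₂_congr fun δ _ => ?_)
  constructor
  · rintro ⟨q, hq, hal⟩
    match q, hq, hal with
    | .Q A B A' B', hq, hal =>
      obtain ⟨_, _, a, b, hab, ha, hb, rfl, rfl, rfl, rfl⟩ := hq
      rcases hab with ⟨_, rfl⟩ | ⟨h, _⟩
      · exact ⟨b, hb, hal⟩
      · exact absurd h (by simp)
  · rintro ⟨b, hb, hal⟩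
    exact ⟨.Q (X.1, some p) (Y.1, some b) (some p, X.2) (some b, Y.2),
      ⟨hX, hY, p, b, Or.inl ⟨rfl, rfl⟩, hp, hb, rfl, rfl, rfl, rfl⟩, hal⟩

theorem iso_false_iff (γ : Ordinal.{0}) {X Y : Iv} (hX : okIv m X) (hY : okIv m Y) {p : ℕ}
    (hp : L.mem Y p) : (base m L).AliveO γ (.iso X Y false p) ↔ ∀ δ < γ, ∃ a : ℕ, L.mem X a ∧
      (base m L).AliveA δ (.Q (X.1, some a) (Y.1, some p) (some a, X.2) (some p, Y.2)) := by
  refine (aliveO_iff (base m L) γ (.iso X Y false p)).trans (forall₂_congr fun δ _ => ?_)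
  constructor
  · rintro ⟨q, hq, hal⟩
    match q, hq, hal with
    | .Q A B A' B', hq, hal =>
      obtain ⟨_, _, a, b, hab, ha, hb, rfl, rfl, rfl, rfl⟩ := hq
      rcases hab with ⟨h, _⟩ | ⟨_, rfl⟩
      · exact absurd h (by simp)
      · exact ⟨a, ha, hal⟩
  · rintro ⟨a, ha, hal⟩
    exact ⟨.Q (X.1, some a) (Y.1, some p) (some a, X.2) (some p, Y.2),
      ⟨hX, hY, a, p, Or.inr ⟨rfl, rfl⟩, ha, hp, rfl, rfl, rfl, rfl⟩, hal⟩

/-- the rank set of a `Q` position, any codes -/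
theorem Q_iff (γ : Ordinal.{0}) (X Y X' Y' : Iv) :
    (base m L).AliveA γ (.Q X Y X' Y') ↔
      ∀ Z W, ((Z = X ∧ W = Y) ∨ (Z = X' ∧ W = Y')) → okIv m Z → okIv m W →
        (∀ p, L.mem Z p → (base m L).AliveO γ (.iso Z W true p)) ∧
        (∀ p, L.mem W p → (base m L).AliveO γ (.iso Z W false p)) := by
  constructor
  · intro h Z W hZW hZ hW
    exact ⟨fun p hp => h (.iso Z W true p) ⟨hZW, hZ, hW, Or.inl ⟨rfl, hp⟩⟩,
      fun p hp => h (.iso Z W false p) ⟨hZW, hZ, hW, Or.inr ⟨rfl, hp⟩⟩⟩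
  · intro h τ hτ
    match τ, hτ with
    | .tO, _ => exact base_tO m L γ
    | .iso Z W s p, hτ =>
      obtain ⟨hZW, hZ, hW, hs⟩ := hτ
      rcases hs with ⟨rfl, hp⟩ | ⟨rfl, hp⟩
      · exact (h Z W hZW hZ hW).1 p hp
      · exact (h Z W hZW hZ hW).2 p hp

theorem baseQ (γ : Ordinal.{0}) : ∀ (X Y X' Y' : Iv),
    okIv m X → okIv m Y → okIv m X' → okIv m Y' →
    ((base m L).AliveA γ (.Q X Y X' Y') ↔
      EF γ (L.iv X) (L.iv Y) ∧ EF γ (L.iv X') (L.iv Y')) := by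
  induction γ using WellFoundedLT.induction with
  | ind γ ih =>
    intro X Y X' Y' hX hY hX' hY'
    have key : ∀ Z W, okIv m Z → okIv m W → (EF γ (L.iv Z) (L.iv W) ↔
        ((∀ p, L.mem Z p → (base m L).AliveO γ (.iso Z W true p)) ∧
        (∀ p, L.mem W p → (base m L).AliveO γ (.iso Z W false p)))) := by
      intro Z W hZ hW
      rw [EF_iv]
      constructor
      · intro h
        refine ⟨fun p hp => ?_, fun p hp => ?_⟩
        · refine (iso_true_iff m L γ hZ hW hp).2 fun δ hδ => ?_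
          obtain ⟨b, hb, h1, h2⟩ := (h δ hδ).1 p hp
          exact ⟨b, hb, (ih δ hδ _ _ _ _ (okIv_left hZ p) (okIv_left hW b) (okIv_right hZ p)
            (okIv_right hW b)).2 ⟨h1, h2⟩⟩
        · refine (iso_false_iff m L γ hZ hW hp).2 fun δ hδ => ?_
          obtain ⟨a, ha, h1, h2⟩ := (h δ hδ).2 p hp
          exact ⟨a, ha, (ih δ hδ _ _ _ _ (okIv_left hZ a) (okIv_left hW p) (okIv_right hZ a)
            (okIv_right hW p)).2 ⟨h1, h2⟩⟩
      · rintro ⟨h1, h2⟩ δ hδ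
        refine ⟨fun p hp => ?_, fun p hp => ?_⟩
        · obtain ⟨b, hb, hal⟩ := (iso_true_iff m L γ hZ hW hp).1 (h1 p hp) δ hδ
          exact ⟨b, hb, (ih δ hδ _ _ _ _ (okIv_left hZ p) (okIv_left hW b) (okIv_right hZ p)
            (okIv_right hW b)).1 hal⟩
        · obtain ⟨a, ha, hal⟩ := (iso_false_iff m L γ hZ hW hp).1 (h2 p hp) δ hδ
          exact ⟨a, ha, (ih δ hδ _ _ _ _ (okIv_left hZ a) (okIv_left hW p) (okIv_right hZ a)
            (okIv_right hW p)).1 hal⟩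
    rw [Q_iff, key X Y hX hY, key X' Y' hX' hY']
    constructor
    · intro h
      exact ⟨h X Y (Or.inl ⟨rfl, rfl⟩) hX hY, h X' Y' (Or.inr ⟨rfl, rfl⟩) hX' hY'⟩
    · rintro ⟨h1, h2⟩ Z W hZW hZ hW
      rcases hZW with ⟨rfl, rfl⟩ | ⟨rfl, rfl⟩
      · exact h1
      · exact h2

theorem iv_Ioo (a b : ℕ) : L.iv (some a, some b) = Ioo (α := Ty L) a b := by
  ext p
  constructor
  · rintro ⟨h1, h2⟩
    exact ⟨h1 a rfl, h2 b rfl⟩
  · rintro ⟨h1, h2⟩
    exact ⟨fun a' ha' => by cases ha'; exact h1, fun b' hb' => by cases hb'; exact h2⟩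

theorem iv_Ioi (a : ℕ) : L.iv (some a, none) = Ioi (α := Ty L) a := by
  ext p
  constructor
  · rintro ⟨h1, h2⟩
    exact h1 a rfl
  · intro h1
    exact ⟨fun a' ha' => by cases ha'; exact h1, fun b' hb' => by cases hb'⟩

theorem ok_bdd (a b : ℕ) : okIv m (some a, some b) := ⟨by simp, Or.inr (by simp)⟩

theorem oml_iff (γ : Ordinal.{0}) (u z x y : ℕ) :
    (base m L).AliveO γ (.oml u z x y) ↔ ∀ δ < γ, ∃ u' : ℕ, L.lt x u' ∧ L.lt u' y ∧
      EF δ (Ioo (α := Ty L) u z) (Ioo (α := Ty L) u' y) := by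
  refine (aliveO_iff (base m L) γ (.oml u z x y)).trans (forall₂_congr fun δ _ => ?_)
  constructor
  · rintro ⟨q, hq, hal⟩
    match q, hq, hal with
    | .Q A B A' B', hq, hal =>
      obtain ⟨u', h1, h2, rfl, rfl, rfl, rfl⟩ := hq
      have := (baseQ m L δ _ _ _ _ (ok_bdd m _ _) (ok_bdd m _ _) (ok_bdd m _ _) (ok_bdd m _ _)).1 hal
      rw [iv_Ioo, iv_Ioo] at this
      exact ⟨u', h1, h2, this.1⟩
  · rintro ⟨u', h1, h2, h3⟩
    refine ⟨.Q (some u, some z) (some u', some y) (some u, some z) (some u', some y),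
      ⟨u', h1, h2, rfl, rfl, rfl, rfl⟩, ?_⟩
    refine (baseQ m L δ _ _ _ _ (ok_bdd m _ _) (ok_bdd m _ _) (ok_bdd m _ _) (ok_bdd m _ _)).2 ?_
    rw [iv_Ioo, iv_Ioo]
    exact ⟨h3, h3⟩

theorem omr_iff (γ : Ordinal.{0}) (w v x y : ℕ) :
    (base m L).AliveO γ (.omr w v x y) ↔ ∀ δ < γ, ∃ v' : ℕ, L.lt x v' ∧ L.lt v' y ∧
      EF δ (Ioo (α := Ty L) w v) (Ioo (α := Ty L) x v') := by
  refine (aliveO_iff (base m L) γ (.omr w v x y)).trans (forall₂_congr fun δ _ => ?_)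
  constructor
  · rintro ⟨q, hq, hal⟩
    match q, hq, hal with
    | .Q A B A' B', hq, hal =>
      obtain ⟨v', h1, h2, rfl, rfl, rfl, rfl⟩ := hq
      have := (baseQ m L δ _ _ _ _ (ok_bdd m _ _) (ok_bdd m _ _) (ok_bdd m _ _) (ok_bdd m _ _)).1 hal
      rw [iv_Ioo, iv_Ioo] at this
      exact ⟨v', h1, h2, this.1⟩
  · rintro ⟨v', h1, h2, h3⟩
    refine ⟨.Q (some w, some v) (some x, some v') (some w, some v) (some x, some v'),
      ⟨v', h1, h2, rfl, rfl, rfl, rfl⟩, ?_⟩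
    refine (baseQ m L δ _ _ _ _ (ok_bdd m _ _) (ok_bdd m _ _) (ok_bdd m _ _) (ok_bdd m _ _)).2 ?_
    rw [iv_Ioo, iv_Ioo]
    exact ⟨h3, h3⟩

theorem Q_bdd (δ : Ordinal.{0}) (a b a' b' c d c' d' : ℕ) :
    (base m L).AliveA δ (.Q (some a, some b) (some a', some b') (some c, some d)
      (some c', some d')) ↔ EF δ (Ioo (α := Ty L) a b) (Ioo (α := Ty L) a' b') ∧
        EF δ (Ioo (α := Ty L) c d) (Ioo (α := Ty L) c' d') := by
  have := baseQ m L δ _ _ _ _ (ok_bdd m a b) (ok_bdd m a' b') (ok_bdd m c d) (ok_bdd m c' d')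
  rw [iv_Ioo, iv_Ioo, iv_Ioo, iv_Ioo] at this
  exact this

end

theorem t_baseQ : StBaseQ := fun m L γ => baseQ m L γ

section
variable (L : LO) (k : Kind) (δ : Ordinal.{0})

theorem leafA (z0 z w x z' w' y : ℕ) :
    (∀ ω, lf L k (.A z0 z w) (.mk x z' w' y) ω → (base k.mode L).AliveO δ ω) ↔
      EF δ (Ioo (α := Ty L) z0 z) (Ioo (α := Ty L) x z') ∧
      EF δ (Ioo (α := Ty L) z w) (Ioo (α := Ty L) z' w') ∧
      ∀ v, L.lt w v → ∀ ε < δ, ∃ v' : ℕ, L.lt w' v' ∧ L.lt v' y ∧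
        EF ε (Ioo (α := Ty L) w v) (Ioo (α := Ty L) w' v') := by
  constructor
  · intro h
    have h1 := (Q_bdd k.mode L δ z0 z x z' z w z' w').1 fun τ hτ => h τ (Or.inl hτ)
    exact ⟨h1.1, h1.2, fun v hv =>
      (omr_iff k.mode L δ w v w' y).1 (h (.omr w v w' y) (Or.inr ⟨v, hv, rfl⟩))⟩
  · rintro ⟨h1, h2, h3⟩ ω hω
    rcases hω with hω | ⟨v, hv, rfl⟩
    · exact (Q_bdd k.mode L δ z0 z x z' z w z' w').2 ⟨h1, h2⟩ ω hω
    · exact (omr_iff k.mode L δ w v w' y).2 (h3 v hv)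

theorem leafB (z w w0 x z' w' y : ℕ) :
    (∀ ω, lf L k (.B z w w0) (.mk x z' w' y) ω → (base k.mode L).AliveO δ ω) ↔
      EF δ (Ioo (α := Ty L) z w) (Ioo (α := Ty L) z' w') ∧
      EF δ (Ioo (α := Ty L) w w0) (Ioo (α := Ty L) w' y) ∧
      ∀ u, L.lt u z → ∀ ε < δ, ∃ u' : ℕ, L.lt x u' ∧ L.lt u' z' ∧
        EF ε (Ioo (α := Ty L) u z) (Ioo (α := Ty L) u' z') := by
  constructor
  · intro h
    have h1 := (Q_bdd k.mode L δ z w z' w' w w0 w' y).1 fun τ hτ => h τ (Or.inl hτ)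
    exact ⟨h1.1, h1.2, fun u hu =>
      (oml_iff k.mode L δ u z x z').1 (h (.oml u z x z') (Or.inr ⟨u, hu, rfl⟩))⟩
  · rintro ⟨h1, h2, h3⟩ ω hω
    rcases hω with hω | ⟨u, hu, rfl⟩
    · exact (Q_bdd k.mode L δ z w z' w' w w0 w' y).2 ⟨h1, h2⟩ ω hω
    · exact (oml_iff k.mode L δ u z x z').2 (h3 u hu)

theorem leafD (z w x z' w' y : ℕ) :
    (∀ ω, lf L k (.D z w) (.mk x z' w' y) ω → (base k.mode L).AliveO δ ω) ↔
      EF δ (Ioo (α := Ty L) z w) (Ioo (α := Ty L) z' w') ∧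
      (∀ u, L.lt u z → ∀ ε < δ, ∃ u' : ℕ, L.lt x u' ∧ L.lt u' z' ∧
        EF ε (Ioo (α := Ty L) u z) (Ioo (α := Ty L) u' z')) ∧
      ∀ v, L.lt w v → ∀ ε < δ, ∃ v' : ℕ, L.lt w' v' ∧ L.lt v' y ∧
        EF ε (Ioo (α := Ty L) w v) (Ioo (α := Ty L) w' v') := by
  constructor
  · intro h
    have h1 := (Q_bdd k.mode L δ z w z' w' z w z' w').1 fun τ hτ => h τ (Or.inl hτ)
    exact ⟨h1.1, fun u hu =>
      (oml_iff k.mode L δ u z x z').1 (h (.oml u z x z') (Or.inr (Or.inl ⟨u, hu, rfl⟩))),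
      fun v hv =>
      (omr_iff k.mode L δ w v w' y).1 (h (.omr w v w' y) (Or.inr (Or.inr ⟨v, hv, rfl⟩)))⟩
  · rintro ⟨h1, h2, h3⟩ ω hω
    rcases hω with hω | ⟨u, hu, rfl⟩ | ⟨v, hv, rfl⟩
    · exact (Q_bdd k.mode L δ z w z' w' z w z' w').2 ⟨h1, h1⟩ ω hω
    · exact (oml_iff k.mode L δ u z x z').2 (h2 u hu)
    · exact (omr_iff k.mode L δ w v w' y).2 (h3 v hv)

theorem leafL (z x y a b : ℕ) :
    (∀ ω, lf L .kL (.L z) (.mk x y a b) ω → (base (Kind.kL).mode L).AliveO δ ω) ↔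
      EF δ (Ioi (α := Ty L) z) (Ioi (α := Ty L) y) ∧
      ∀ u, L.lt u z → ∀ ε < δ, ∃ u' : ℕ, L.lt x u' ∧ L.lt u' y ∧
        EF ε (Ioo (α := Ty L) u z) (Ioo (α := Ty L) u' y) := by
  have ok : ∀ a : ℕ, okIv (Kind.kL).mode (some a, none) := fun a => ⟨by simp, Or.inl rfl⟩
  have hQ := baseQ (Kind.kL).mode L δ (some z, none) (some y, none) (some z, none) (some y, none)
    (ok z) (ok y) (ok z) (ok y)
  rw [iv_Ioi, iv_Ioi] at hQ
  constructor
  · intro h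
    have h1 := hQ.1 fun τ hτ => h τ (Or.inl hτ)
    exact ⟨h1.1, fun u hu =>
      (oml_iff _ L δ u z x y).1 (h (.oml u z x y) (Or.inr ⟨u, hu, rfl⟩))⟩
  · rintro ⟨h1, h2⟩ ω hω
    rcases hω with hω | ⟨u, hu, rfl⟩
    · exact hQ.2 ⟨h1, h1⟩ ω hω
    · exact (oml_iff _ L δ u z x y).2 (h2 u hu)

end

section
variable (L : LO) (k : Kind) (γ : Ordinal.{0})

/-- the part of `Gam` for the moves `A` -/
theorem partA : (∀ z0 z w : ℕ, L.lt z0 z → L.lt z w → ∀ δ < γ, ∃ j, rs L (.A z0 z w) j ∧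
      ∀ ω, lf L k (.A z0 z w) j ω → (base k.mode L).AliveO δ ω) ↔ GamA (Ty L) γ := by
  refine forall_congr' fun z0 => forall_congr' fun z => forall_congr' fun w =>
    forall_congr' fun _ => forall_congr' fun _ => forall₂_congr fun δ _ => ?_
  constructor
  · rintro ⟨⟨x, z', w', y⟩, hj, hl⟩
    have hj' : L.lt x z' ∧ L.lt z' w' ∧ L.lt w' y := hj
    obtain ⟨h1, h2, h3⟩ := (leafA L k δ z0 z w x z' w' y).1 hl
    exact ⟨x, z', w', y, hj'.1, hj'.2.1, hj'.2.2, h1, h2, h3⟩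
  · rintro ⟨x, z', w', y, a1, a2, a3, h1, h2, h3⟩
    have hj' : L.lt x z' ∧ L.lt z' w' ∧ L.lt w' y := ⟨a1, a2, a3⟩
    exact ⟨.mk x z' w' y, hj', (leafA L k δ z0 z w x z' w' y).2 ⟨h1, h2, h3⟩⟩

theorem partB : (∀ z w w0 : ℕ, L.lt z w → L.lt w w0 → ∀ δ < γ, ∃ j, rs L (.B z w w0) j ∧
      ∀ ω, lf L k (.B z w w0) j ω → (base k.mode L).AliveO δ ω) ↔ GamB (Ty L) γ := by
  refine forall_congr' fun z => forall_congr' fun w => forall_congr' fun w0 =>
    forall_congr' fun _ => forall_congr' fun _ => forall₂_congr fun δ _ => ?_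
  constructor
  · rintro ⟨⟨x, z', w', y⟩, hj, hl⟩
    have hj' : L.lt x z' ∧ L.lt z' w' ∧ L.lt w' y := hj
    obtain ⟨h1, h2, h3⟩ := (leafB L k δ z w w0 x z' w' y).1 hl
    exact ⟨x, z', w', y, hj'.1, hj'.2.1, hj'.2.2, h1, h2, h3⟩
  · rintro ⟨x, z', w', y, a1, a2, a3, h1, h2, h3⟩
    have hj' : L.lt x z' ∧ L.lt z' w' ∧ L.lt w' y := ⟨a1, a2, a3⟩
    exact ⟨.mk x z' w' y, hj', (leafB L k δ z w w0 x z' w' y).2 ⟨h1, h2, h3⟩⟩

theorem partD : (∀ z w : ℕ, L.lt z w → ∀ δ < γ, ∃ j, rs L (.D z w) j ∧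
      ∀ ω, lf L k (.D z w) j ω → (base k.mode L).AliveO δ ω) ↔ GamD (Ty L) γ := by
  refine forall_congr' fun z => forall_congr' fun w =>
    forall_congr' fun _ => forall₂_congr fun δ _ => ?_
  constructor
  · rintro ⟨⟨x, z', w', y⟩, hj, hl⟩
    have hj' : L.lt x z' ∧ L.lt z' w' ∧ L.lt w' y := hj
    obtain ⟨h1, h2, h3⟩ := (leafD L k δ z w x z' w' y).1 hl
    exact ⟨x, z', w', y, hj'.1, hj'.2.1, hj'.2.2, h1, h2, h3⟩
  · rintro ⟨x, z', w', y, a1, a2, a3, h1, h2, h3⟩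
    have hj' : L.lt x z' ∧ L.lt z' w' ∧ L.lt w' y := ⟨a1, a2, a3⟩
    exact ⟨.mk x z' w' y, hj', (leafD L k δ z w x z' w' y).2 ⟨h1, h2, h3⟩⟩

theorem partL : (∀ z : ℕ, ∀ δ < γ, ∃ j, rs L (.L z) j ∧
      ∀ ω, lf L .kL (.L z) j ω → (base (Kind.kL).mode L).AliveO δ ω) ↔ GamL (Ty L) γ := by
  refine forall_congr' fun z => forall₂_congr fun δ _ => ?_
  constructor
  · rintro ⟨⟨x, y, a, b⟩, hj, hl⟩
    have hj' : L.lt x y := hj
    obtain ⟨h1, h2⟩ := (leafL L δ z x y a b).1 hl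
    exact ⟨x, y, hj', h1, h2⟩
  · rintro ⟨x, y, a1, h1, h2⟩
    exact ⟨.mk x y x y, a1, (leafL L δ z x y x y).2 ⟨h1, h2⟩⟩

end

theorem t_gamK : StGamK := by
  intro L γ
  refine ⟨?_, ?_, ?_, ?_, ?_, ?_⟩
  · rw [← partA L .kA γ]
    constructor
    · intro h z0 z w h1 h2
      exact h (.A z0 z w) ⟨Or.inl rfl, h1, h2⟩
    · intro h i hi
      match i, hi with
      | .A z0 z w, ⟨_, h1, h2⟩ => exact h z0 z w h1 h2
      | .B _ _ _, ⟨hk, _⟩ => exact absurd hk (by simp)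
      | .D _ _, ⟨hk, _⟩ => exact absurd hk (by simp)
      | .L _, hk => exact absurd (show Kind.kA = Kind.kL from hk) (by simp)
  · intro i hi
    match i, hi with
    | .A _ _ _, ⟨hk, _⟩ => exact absurd hk (by simp)
    | .B _ _ _, ⟨hk, _⟩ => exact absurd hk (by simp)
    | .D _ _, ⟨hk, _⟩ => exact absurd hk (by simp)
    | .L _, hk => exact absurd (show Kind.kE = Kind.kL from hk) (by simp)
  · rw [← partA L .k1 γ, ← partB L .k1 γ, ← partD L .k1 γ]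
    constructor
    · intro h
      refine ⟨fun z0 z w h1 h2 => ?_, fun z w w0 h1 h2 => ?_, fun z w h1 => ?_⟩
      · exact h (.A z0 z w) ⟨Or.inr (Or.inl rfl), h1, h2⟩
      · exact h (.B z w w0) ⟨Or.inl rfl, h1, h2⟩
      · exact h (.D z w) ⟨rfl, h1⟩
    · rintro ⟨ha, hb, hd⟩ i hi
      match i, hi with
      | .A z0 z w, ⟨_, h1, h2⟩ => exact ha z0 z w h1 h2
      | .B z w w0, ⟨_, h1, h2⟩ => exact hb z w w0 h1 h2
      | .D z w, ⟨_, h1⟩ => exact hd z w h1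
      | .L _, hk => exact absurd (show Kind.k1 = Kind.kL from hk) (by simp)
  · rw [← partA L .k2 γ, ← partB L .k2 γ]
    constructor
    · intro h
      refine ⟨fun z0 z w h1 h2 => ?_, fun z w w0 h1 h2 => ?_⟩
      · exact h (.A z0 z w) ⟨Or.inr (Or.inr rfl), h1, h2⟩
      · exact h (.B z w w0) ⟨Or.inr rfl, h1, h2⟩
    · rintro ⟨ha, hb⟩ i hi
      match i, hi with
      | .A z0 z w, ⟨_, h1, h2⟩ => exact ha z0 z w h1 h2
      | .B z w w0, ⟨_, h1, h2⟩ => exact hb z w w0 h1 h2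
      | .D _ _, ⟨hk, _⟩ => exact absurd hk (by simp)
      | .L _, hk => exact absurd (show Kind.k2 = Kind.kL from hk) (by simp)
  · rw [← partL L γ]
    constructor
    · intro h z
      exact h (.L z) rfl
    · intro h i hi
      match i, hi with
      | .A _ _ _, ⟨hk, _⟩ => exact absurd hk (by simp)
      | .B _ _ _, ⟨hk, _⟩ => exact absurd hk (by simp)
      | .D _ _, ⟨hk, _⟩ => exact absurd hk (by simp)
      | .L z, _ => exact h z
  · intro i hi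
    match i, hi with
    | .A _ _ _, ⟨hk, _⟩ => exact absurd hk (by simp)
    | .B _ _ _, ⟨hk, _⟩ => exact absurd hk (by simp)
    | .D _ _, ⟨hk, _⟩ => exact absurd hk (by simp)
    | .L _, hk => exact absurd (show Kind.kF = Kind.kL from hk) (by simp)

end Pool.Agent.W374.CBN
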