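import Pool.Agent.W374.CB.Base

/-!
# Base games of different orders have the same ranks
-/

namespace Pool.Agent.W374.CBN
open Set Pool.Agent.W919.CB

section
variable {α β : Type} [LinearOrder α] [LinearOrder β]

theorem isoS_symm {S : Set α} {T : Set β} (h : IsoS S T) : IsoS T S := h.map OrderIso.symm

theorem isoS_sub {S : Set α} {T : Set β} (f : S ≃o T) {S' : Set α} {T' : Set β} (hS : S' ⊆ S)
    (hT : T' ⊆ T) (h : ∀ x (hx : x ∈ S), x ∈ S' ↔ (f ⟨x, hx⟩ : β) ∈ T') : IsoS S' T' :=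
  ⟨{ toFun := fun x => ⟨f ⟨x, hS x.2⟩, (h _ _).1 x.2⟩
     invFun := fun y => ⟨f.symm ⟨y, hT y.2⟩, (h _ (f.symm ⟨y, hT y.2⟩).2).2 (by
        have : f ⟨(f.symm ⟨y, hT y.2⟩ : α), (f.symm ⟨y, hT y.2⟩).2⟩ = ⟨y, hT y.2⟩ :=
          f.apply_symm_apply _
        rw [this]
        exact y.2)⟩
     left_inv := fun x => by
        apply Subtype.ext
        change ((f.symm (f ⟨x, hS x.2⟩) : S) : α) = x
        rw [f.symm_apply_apply]
     right_inv := fun y => by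
        apply Subtype.ext
        change ((f (f.symm ⟨y, hT y.2⟩) : T) : β) = y
        rw [f.apply_symm_apply]
     map_rel_iff' := by
        intro a b
        change (f ⟨a, hS a.2⟩ : β) ≤ f ⟨b, hS b.2⟩ ↔ (a : α) ≤ b
        exact f.le_iff_le }⟩

theorem isoS_Iio {S : Set α} {T : Set β} (f : S ≃o T) {a : α} (ha : a ∈ S) :
    IsoS (S ∩ Iio a) (T ∩ Iio (f ⟨a, ha⟩ : β)) :=
  isoS_sub f inter_subset_left inter_subset_left fun x hx => by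
    constructor
    · rintro ⟨_, h⟩
      exact ⟨(f _).2, f.lt_iff_lt.2 (show (⟨x, hx⟩ : S) < ⟨a, ha⟩ from h)⟩
    · rintro ⟨_, h⟩
      exact ⟨hx, f.lt_iff_lt.1 (show f ⟨x, hx⟩ < f ⟨a, ha⟩ from h)⟩

theorem isoS_Ioi {S : Set α} {T : Set β} (f : S ≃o T) {a : α} (ha : a ∈ S) :
    IsoS (S ∩ Ioi a) (T ∩ Ioi (f ⟨a, ha⟩ : β)) :=
  isoS_sub f inter_subset_left inter_subset_left fun x hx => by
    constructor
    · rintro ⟨_, h⟩
      exact ⟨(f _).2, f.lt_iff_lt.2 (show (⟨a, ha⟩ : S) < ⟨x, hx⟩ from h)⟩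
    · rintro ⟨_, h⟩
      exact ⟨hx, f.lt_iff_lt.1 (show f ⟨a, ha⟩ < f ⟨x, hx⟩ from h)⟩

end

variable {m : Bool} {L L' : LO}

theorem isoT_imp (h1 : StEFinv) {γ : Ordinal.{0}} {X Y X' Y' : Iv} (f : L.iv X ≃o L'.iv X')
    (g : L.iv Y ≃o L'.iv Y') (oX : okIv m X) (oY : okIv m Y) (oX' : okIv m X') (oY' : okIv m Y')
    {p p' : ℕ} (hp : L.mem X p) (hp' : p' = (f ⟨p, hp⟩ : Ty L'))
    (h : (base m L).AliveO γ (.iso X Y true p)) : (base m L').AliveO γ (.iso X' Y' true p') := by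
  have hpm : L'.mem X' p' := by rw [hp']; exact (f ⟨p, hp⟩).2
  rw [iso_true_iff m L' γ oX' oY' hpm]
  rw [iso_true_iff m L γ oX oY hp] at h
  intro δ hδ
  obtain ⟨b, hb, hal⟩ := h δ hδ
  rw [baseQ m L δ _ _ _ _ (okIv_left oX p) (okIv_left oY b) (okIv_right oX p)
    (okIv_right oY b)] at hal
  obtain ⟨b', hb'⟩ : ∃ b' : ℕ, b' = (g ⟨b, hb⟩ : Ty L') := ⟨_, rfl⟩
  have hbm : L'.mem Y' b' := by rw [hb']; exact (g ⟨b, hb⟩).2
  refine ⟨b', hbm, ?_⟩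
  rw [baseQ m L' δ _ _ _ _ (okIv_left oX' p') (okIv_left oY' b') (okIv_right oX' p')
    (okIv_right oY' b'), ← iv_left L' X' p' hpm, ← iv_left L' Y' b' hbm,
    ← iv_right L' X' p' hpm, ← iv_right L' Y' b' hbm]
  rw [← iv_left L X p hp, ← iv_left L Y b hb, ← iv_right L X p hp, ← iv_right L Y b hb] at hal
  subst hp' hb'
  exact ⟨h1 _ _ _ _ δ _ _ _ _ (isoS_Iio f hp) (isoS_Iio g hb) hal.1,
    h1 _ _ _ _ δ _ _ _ _ (isoS_Ioi f hp) (isoS_Ioi g hb) hal.2⟩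

theorem isoF_imp (h1 : StEFinv) {γ : Ordinal.{0}} {X Y X' Y' : Iv} (f : L.iv X ≃o L'.iv X')
    (g : L.iv Y ≃o L'.iv Y') (oX : okIv m X) (oY : okIv m Y) (oX' : okIv m X') (oY' : okIv m Y')
    {p p' : ℕ} (hp : L.mem Y p) (hp' : p' = (g ⟨p, hp⟩ : Ty L'))
    (h : (base m L).AliveO γ (.iso X Y false p)) : (base m L').AliveO γ (.iso X' Y' false p') := by
  have hpm : L'.mem Y' p' := by rw [hp']; exact (g ⟨p, hp⟩).2
  rw [iso_false_iff m L' γ oX' oY' hpm]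
  rw [iso_false_iff m L γ oX oY hp] at h
  intro δ hδ
  obtain ⟨a, ha, hal⟩ := h δ hδ
  rw [baseQ m L δ _ _ _ _ (okIv_left oX a) (okIv_left oY p) (okIv_right oX a)
    (okIv_right oY p)] at hal
  obtain ⟨a', ha'⟩ : ∃ a' : ℕ, a' = (f ⟨a, ha⟩ : Ty L') := ⟨_, rfl⟩
  have ham : L'.mem X' a' := by rw [ha']; exact (f ⟨a, ha⟩).2
  refine ⟨a', ham, ?_⟩
  rw [baseQ m L' δ _ _ _ _ (okIv_left oX' a') (okIv_left oY' p') (okIv_right oX' a')
    (okIv_right oY' p'), ← iv_left L' X' a' ham, ← iv_left L' Y' p' hpm,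
    ← iv_right L' X' a' ham, ← iv_right L' Y' p' hpm]
  rw [← iv_left L X a ha, ← iv_left L Y p hp, ← iv_right L X a ha, ← iv_right L Y p hp] at hal
  subst hp' ha'
  exact ⟨h1 _ _ _ _ δ _ _ _ _ (isoS_Iio f ha) (isoS_Iio g hp) hal.1,
    h1 _ _ _ _ δ _ _ _ _ (isoS_Ioi f ha) (isoS_Ioi g hp) hal.2⟩

theorem Ioo_Ioi {α : Type} [LinearOrder α] {x y u : α} (h : u ∈ Ioo x y) :
    Ioo x y ∩ Ioi u = Ioo u y := by
  ext t
  constructor
  · rintro ⟨⟨_, h2⟩, h3⟩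
    exact ⟨h3, h2⟩
  · rintro ⟨h2, h3⟩
    exact ⟨⟨h.1.trans h2, h3⟩, h2⟩

theorem Ioo_Iio {α : Type} [LinearOrder α] {x y u : α} (h : u ∈ Ioo x y) :
    Ioo x y ∩ Iio u = Ioo x u := by
  ext t
  constructor
  · rintro ⟨⟨h2, _⟩, h3⟩
    exact ⟨h2, h3⟩
  · rintro ⟨h2, h3⟩
    exact ⟨⟨h2, h3.trans h.2⟩, h3⟩

theorem oml_imp (h1 : StEFinv) {γ : Ordinal.{0}} {u z x y u' z' x' y' : ℕ}
    (hu : IsoS (Ioo (α := Ty L) u z) (Ioo (α := Ty L') u' z'))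
    (hx : IsoS (Ioo (α := Ty L) x y) (Ioo (α := Ty L') x' y'))
    (h : (base m L).AliveO γ (.oml u z x y)) : (base m L').AliveO γ (.oml u' z' x' y') := by
  rw [oml_iff] at h ⊢
  obtain ⟨f⟩ := hx
  intro δ hδ
  obtain ⟨t, a1, a2, a3⟩ := h δ hδ
  have ht : (t : Ty L) ∈ Ioo (α := Ty L) x y := ⟨a1, a2⟩
  have ht' := (f ⟨t, ht⟩).2
  refine ⟨(f ⟨t, ht⟩ : Ty L'), ht'.1, ht'.2, ?_⟩
  refine h1 _ _ _ _ δ _ _ _ _ hu ?_ a3
  have := isoS_Ioi f ht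
  rwa [Ioo_Ioi ht, Ioo_Ioi ht'] at this

theorem omr_imp (h1 : StEFinv) {γ : Ordinal.{0}} {w v x y w' v' x' y' : ℕ}
    (hu : IsoS (Ioo (α := Ty L) w v) (Ioo (α := Ty L') w' v'))
    (hx : IsoS (Ioo (α := Ty L) x y) (Ioo (α := Ty L') x' y'))
    (h : (base m L).AliveO γ (.omr w v x y)) : (base m L').AliveO γ (.omr w' v' x' y') := by
  rw [omr_iff] at h ⊢
  obtain ⟨f⟩ := hx
  intro δ hδ
  obtain ⟨t, a1, a2, a3⟩ := h δ hδ
  have ht : (t : Ty L) ∈ Ioo (α := Ty L) x y := ⟨a1, a2⟩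
  have ht' := (f ⟨t, ht⟩).2
  refine ⟨(f ⟨t, ht⟩ : Ty L'), ht'.1, ht'.2, ?_⟩
  refine h1 _ _ _ _ δ _ _ _ _ hu ?_ a3
  have := isoS_Iio f ht
  rwa [Ioo_Iio ht, Ioo_Iio ht'] at this

theorem dead_rank (σ : BO) (h : ∀ q, ¬ (base m L).R σ q) :
    ∃ σ' : BO, ∀ γ, (base m L).AliveO γ σ ↔ (base m L').AliveO γ σ' := by
  refine ⟨.dead, fun γ => ?_⟩
  rw [show (base m L).AliveO γ σ ↔ _ from aliveO_iff (base m L) γ σ,
    show (base m L').AliveO γ .dead ↔ _ from aliveO_iff (base m L') γ .dead]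
  constructor
  · intro hh δ hδ
    obtain ⟨q, hq, _⟩ := hh δ hδ
    exact absurd hq (h q)
  · intro hh δ hδ
    obtain ⟨q, hq, _⟩ := hh δ hδ
    exact absurd hq (base_dead m L' q)

theorem ok_star (hB : SameB L L') (hF : m = true → SameF L L') (X : Iv) (hX : okIv m X) :
    ∃ X' : Iv, okIv m X' ∧ IsoS (L.iv X) (L'.iv X') := by
  obtain ⟨a, b⟩ := X
  obtain ⟨h1, h2⟩ := hX
  match a, b, h1, h2 with
  | some a, some b, _, _ =>
    obtain ⟨a', b', h⟩ := hB a b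
    exact ⟨(some a', some b'), ok_bdd m a' b', h⟩
  | some a, none, _, h2 =>
    have hm : m = true := by
      rcases h2 with h2 | h2
      · exact h2
      · exact absurd rfl h2
    obtain ⟨a', h⟩ := hF hm a
    exact ⟨(some a', none), ⟨by simp, Or.inl hm⟩, h⟩
  | none, _, h1, _ => exact absurd rfl h1

theorem sameBO (h1 : StEFinv) (hB : SameB L L') (hF : m = true → SameF L L') (σ : BO) :
    ∃ σ' : BO, ∀ γ, (base m L).AliveO γ σ ↔ (base m L').AliveO γ σ' := by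
  match σ with
  | .tO => exact ⟨.tO, fun γ => ⟨fun _ => base_tO m L' γ, fun _ => base_tO m L γ⟩⟩
  | .dead => exact dead_rank .dead (base_dead m L)
  | .oml u z x y =>
    obtain ⟨u', z', hu⟩ := hB u z
    obtain ⟨x', y', hx⟩ := hB x y
    rw [iv_Ioo, iv_Ioo] at hu hx
    exact ⟨.oml u' z' x' y', fun γ => ⟨oml_imp h1 hu hx, oml_imp h1 (isoS_symm hu) (isoS_symm hx)⟩⟩
  | .omr u z x y =>
    obtain ⟨u', z', hu⟩ := hB u z
    obtain ⟨x', y', hx⟩ := hB x y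
    rw [iv_Ioo, iv_Ioo] at hu hx
    exact ⟨.omr u' z' x' y', fun γ => ⟨omr_imp h1 hu hx, omr_imp h1 (isoS_symm hu) (isoS_symm hx)⟩⟩
  | .iso X Y true p =>
    by_cases hc : okIv m X ∧ okIv m Y ∧ L.mem X p
    · obtain ⟨oX, oY, hp⟩ := hc
      obtain ⟨X', oX', ⟨f⟩⟩ := ok_star hB hF X oX
      obtain ⟨Y', oY', ⟨g⟩⟩ := ok_star hB hF Y oY
      refine ⟨.iso X' Y' true (f ⟨p, hp⟩ : Ty L'), fun γ =>
        ⟨isoT_imp h1 f g oX oY oX' oY' hp rfl,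
          isoT_imp h1 f.symm g.symm oX' oY' oX oY (f ⟨p, hp⟩).2 ?_⟩⟩
      have : f.symm ⟨(f ⟨p, hp⟩ : Ty L'), (f ⟨p, hp⟩).2⟩ = ⟨p, hp⟩ := f.symm_apply_apply _
      rw [this]
    · refine dead_rank _ fun q hq => hc ?_
      match q, hq with
      | .Q A B A' B', hq =>
        obtain ⟨oX, oY, a, b, hab, ha, _⟩ := hq
        rcases hab with ⟨_, rfl⟩ | ⟨h, _⟩
        · exact ⟨oX, oY, ha⟩
        · exact absurd h (by simp)
  | .iso X Y false p =>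
    by_cases hc : okIv m X ∧ okIv m Y ∧ L.mem Y p
    · obtain ⟨oX, oY, hp⟩ := hc
      obtain ⟨X', oX', ⟨f⟩⟩ := ok_star hB hF X oX
      obtain ⟨Y', oY', ⟨g⟩⟩ := ok_star hB hF Y oY
      refine ⟨.iso X' Y' false (g ⟨p, hp⟩ : Ty L'), fun γ =>
        ⟨isoF_imp h1 f g oX oY oX' oY' hp rfl,
          isoF_imp h1 f.symm g.symm oX' oY' oX oY (g ⟨p, hp⟩).2 ?_⟩⟩
      have : g.symm ⟨(g ⟨p, hp⟩ : Ty L'), (g ⟨p, hp⟩).2⟩ = ⟨p, hp⟩ := g.symm_apply_apply _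
      rw [this]
    · refine dead_rank _ fun q hq => hc ?_
      match q, hq with
      | .Q A B A' B', hq =>
        obtain ⟨oX, oY, a, b, hab, _, hb, _⟩ := hq
        rcases hab with ⟨h, _⟩ | ⟨_, rfl⟩
        · exact absurd h (by simp)
        · exact ⟨oX, oY, hb⟩

theorem sameBA (h1 : StEFinv) (hB : SameB L L') (hF : m = true → SameF L L') (p : BA) :
    ∃ p' : BA, ∀ γ, (base m L).AliveA γ p ↔ (base m L').AliveA γ p' := by
  have congr2 : ∀ {X Y X' Y' : Iv} (γ : Ordinal.{0}), IsoS (L.iv X) (L'.iv X') →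
      IsoS (L.iv Y) (L'.iv Y') → (EF γ (L.iv X) (L.iv Y) ↔ EF γ (L'.iv X') (L'.iv Y')) :=
    fun γ hX hY => ⟨h1 _ _ _ _ γ _ _ _ _ hX hY,
      h1 _ _ _ _ γ _ _ _ _ (isoS_symm hX) (isoS_symm hY)⟩
  match p with
  | .tA => exact ⟨.tA, fun γ => ⟨fun _ => base_tA m L' γ, fun _ => base_tA m L γ⟩⟩
  | .sing ω =>
    obtain ⟨ω', hω⟩ := sameBO (m := m) h1 hB hF ω
    exact ⟨.sing ω', fun γ => by rw [base_sing, base_sing]; exact hω γ⟩
  | .Q X Y U V =>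
    by_cases c1 : okIv m X ∧ okIv m Y
    · obtain ⟨X', oX', hX⟩ := ok_star hB hF X c1.1
      obtain ⟨Y', oY', hY⟩ := ok_star hB hF Y c1.2
      by_cases c2 : okIv m U ∧ okIv m V
      · obtain ⟨U', oU', hU⟩ := ok_star hB hF U c2.1
        obtain ⟨V', oV', hV⟩ := ok_star hB hF V c2.2
        refine ⟨.Q X' Y' U' V', fun γ => ?_⟩
        rw [baseQ m L γ X Y U V c1.1 c1.2 c2.1 c2.2, baseQ m L' γ X' Y' U' V' oX' oY' oU' oV',
          congr2 γ hX hY, congr2 γ hU hV]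
      · refine ⟨.Q X' Y' X' Y', fun γ => ?_⟩
        rw [baseQ m L' γ X' Y' X' Y' oX' oY' oX' oY', and_self, ← congr2 γ hX hY]
        have e := baseQ m L γ X Y X Y c1.1 c1.2 c1.1 c1.2
        rw [and_self] at e
        rw [← e, Q_iff, Q_iff]
        constructor
        · intro h Z W hZW oZ oW
          exact h Z W (hZW.elim Or.inl Or.inl) oZ oW
        · intro h Z W hZW oZ oW
          rcases hZW with hZW | ⟨rfl, rfl⟩
          · exact h Z W (Or.inl hZW) oZ oW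
          · exact absurd ⟨oZ, oW⟩ c2
    · by_cases c2 : okIv m U ∧ okIv m V
      · obtain ⟨U', oU', hU⟩ := ok_star hB hF U c2.1
        obtain ⟨V', oV', hV⟩ := ok_star hB hF V c2.2
        refine ⟨.Q U' V' U' V', fun γ => ?_⟩
        rw [baseQ m L' γ U' V' U' V' oU' oV' oU' oV', and_self, ← congr2 γ hU hV]
        have e := baseQ m L γ U V U V c2.1 c2.2 c2.1 c2.2
        rw [and_self] at e
        rw [← e, Q_iff, Q_iff]
        constructor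
        · intro h Z W hZW oZ oW
          exact h Z W (hZW.elim Or.inr Or.inr) oZ oW
        · intro h Z W hZW oZ oW
          rcases hZW with ⟨rfl, rfl⟩ | hZW
          · exact absurd ⟨oZ, oW⟩ c1
          · exact h Z W (Or.inr hZW) oZ oW
      · refine ⟨.tA, fun γ => ⟨fun _ => base_tA m L' γ, fun _ => ?_⟩⟩
        rw [Q_iff]
        intro Z W hZW oZ oW
        rcases hZW with ⟨rfl, rfl⟩ | ⟨rfl, rfl⟩
        · exact absurd ⟨oZ, oW⟩ c1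
        · exact absurd ⟨oZ, oW⟩ c2

theorem t_basesame (h1 : StEFinv) : StBaseSame := by
  intro m L L' hB hB' hF
  refine ⟨sameBA h1 hB fun hm => (hF hm).1, ?_, sameBO h1 hB fun hm => (hF hm).1, ?_⟩
  · intro p'
    obtain ⟨p, hp⟩ := sameBA (m := m) h1 hB' (fun hm => (hF hm).2) p'
    exact ⟨p, fun γ => (hp γ).symm⟩
  · intro p'
    obtain ⟨p, hp⟩ := sameBO (m := m) h1 hB' (fun hm => (hF hm).2) p'
    exact ⟨p, fun γ => (hp γ).symm⟩

end Pool.Agent.W374.CBN
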