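import Pool.Agent.W919.CB.Sys

/-!
# Normalised games
-/

namespace Pool.Agent.W374.CBN
open Set Pool.Agent.W919.CB

theorem aliveO_iff (G : Game) (γ : Ordinal.{0}) (σ : G.O) :
    G.AliveO γ σ ↔ ∀ δ < γ, ∃ q, G.R σ q ∧ G.AliveA δ q := by
  rw [Game.AliveO]
  rfl

theorem aliveO_mono (G : Game) {γ γ' : Ordinal.{0}} (h : γ ≤ γ') {σ : G.O}
    (hσ : G.AliveO γ' σ) : G.AliveO γ σ := by
  rw [aliveO_iff] at hσ ⊢
  exact fun δ hδ => hσ δ (hδ.trans_le h)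

theorem aliveA_mono (G : Game) {γ γ' : Ordinal.{0}} (h : γ ≤ γ') {p : G.A}
    (hp : G.AliveA γ' p) : G.AliveA γ p := fun τ hτ => aliveO_mono G h (hp τ hτ)

theorem aliveO_zero (G : Game) (σ : G.O) : G.AliveO 0 σ := by
  rw [aliveO_iff]
  exact fun δ hδ => absurd hδ (not_lt_zero)

theorem aliveA_zero (G : Game) (p : G.A) : G.AliveA 0 p := fun τ _ => aliveO_zero G τ

/-- the rank set of an AND position is closed under suprema -/
theorem aliveA_iSup (G : Game) (p : G.A) {ι : Type} (g : ι → Ordinal.{0})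
    (h : ∀ i, G.AliveA (g i) p) : G.AliveA (⨆ i, g i) p := by
  intro τ hτ
  rw [aliveO_iff]
  intro ε hε
  obtain ⟨i, hi⟩ : ∃ i, ε < g i := by
    by_contra hc
    push Not at hc
    have : (⨆ i, g i) ≤ ε := Ordinal.iSup_le hc
    exact absurd hε (not_lt.2 this)
  exact (aliveO_iff G _ _).1 (h i τ hτ) ε hi

/-- a response alive at `γ` makes the position alive at `γ + 1` -/
theorem aliveO_succ (G : Game) {γ : Ordinal.{0}} {σ : G.O} {q : G.A} (hq : G.R σ q)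
    (h : G.AliveA γ q) : G.AliveO (Order.succ γ) σ := by
  rw [aliveO_iff]
  intro δ hδ
  exact ⟨q, hq, aliveA_mono G (Order.lt_succ_iff.1 hδ) h⟩

/-- lower sets of ordinals are comparable -/
theorem comparable {P Q : Ordinal.{0} → Prop} (hP : ∀ a b, a ≤ b → P b → P a)
    (hQ : ∀ a b, a ≤ b → Q b → Q a) : (∀ γ, P γ → Q γ) ∨ (∀ γ, Q γ → P γ) := by
  by_contra h
  push Not at h
  obtain ⟨⟨a, ha, ha'⟩, ⟨b, hb, hb'⟩⟩ := h
  rcases le_total a b with hab | hab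
  · exact ha' (hQ _ _ hab hb)
  · exact hb' (hP _ _ hab ha)

theorem least {P : Ordinal.{0} → Prop} (h : ∃ γ, ¬ P γ) : ∃ γ, ¬ P γ ∧ ∀ δ < γ, P δ := by
  obtain ⟨γ, hγ, hmin⟩ := WellFounded.has_min (r := ((· < ·) : Ordinal.{0} → Ordinal.{0} → Prop))
    Ordinal.lt_wf {γ | ¬ P γ} h
  refine ⟨γ, hγ, fun δ hδ => ?_⟩
  by_contra hc
  exact hmin δ hc hδ

/-- AND step -/
theorem and_step {G G' : Game} (hne : ∀ p : G'.A, ∃ σ, G'.C p σ)
    (hO : ∀ p : G.O, ∃ p' : G'.O, ∀ γ, G.AliveO γ p ↔ G'.AliveO γ p')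
    {p u : G.A} {p' u' : G'.A}
    (h : ∀ γ, (G'.AliveA γ p' ∧ G'.AliveA γ u') → (G.AliveA γ p ∧ G.AliveA γ u))
    {σ v : G.O} (hσ : G.C p σ ∨ G.C u σ) :
    ∃ σ' v' : G'.O, (G'.C p' σ' ∨ G'.C u' σ') ∧
      ∀ γ, (G.AliveO γ σ ∨ G.AliveO γ v) ↔ (G'.AliveO γ σ' ∨ G'.AliveO γ v') := by
  obtain ⟨v', hv'⟩ : ∃ v' : G'.O, ∀ γ, (G.AliveO γ σ ∨ G.AliveO γ v) ↔ G'.AliveO γ v' := by
    rcases comparable (P := fun γ => G.AliveO γ σ) (Q := fun γ => G.AliveO γ v)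
      (fun a b hab hb => aliveO_mono G hab hb) (fun a b hab hb => aliveO_mono G hab hb) with hc | hc
    · obtain ⟨v', hv'⟩ := hO v
      exact ⟨v', fun γ => ⟨fun hh => (hv' γ).1 (hh.elim (hc γ) id), fun hh => Or.inr ((hv' γ).2 hh)⟩⟩
    · obtain ⟨v', hv'⟩ := hO σ
      exact ⟨v', fun γ => ⟨fun hh => (hv' γ).1 (hh.elim id (hc γ)), fun hh => Or.inl ((hv' γ).2 hh)⟩⟩
  obtain ⟨σ', hσ', hs⟩ : ∃ σ' : G'.O, (G'.C p' σ' ∨ G'.C u' σ') ∧
      ∀ γ, G'.AliveO γ σ' → G'.AliveO γ v' := by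
    by_cases hall : ∀ γ, G'.AliveO γ v'
    · obtain ⟨σ', h1⟩ := hne p'
      exact ⟨σ', Or.inl h1, fun γ _ => hall γ⟩
    · push Not at hall
      obtain ⟨γ, hγ, hlt⟩ := least (P := fun γ => G'.AliveO γ v') hall
      have h1 : ¬ (G'.AliveA γ p' ∧ G'.AliveA γ u') := by
        intro hh
        have h2 := h γ hh
        apply hγ
        rw [← hv' γ]
        left
        rcases hσ with hσ | hσ
        · exact h2.1 σ hσ
        · exact h2.2 σ hσ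
      obtain ⟨σ', hσ', hn⟩ : ∃ σ' : G'.O, (G'.C p' σ' ∨ G'.C u' σ') ∧ ¬ G'.AliveO γ σ' := by
        by_contra hc
        push Not at hc
        exact h1 ⟨fun τ hτ => hc τ (Or.inl hτ), fun τ hτ => hc τ (Or.inr hτ)⟩
      refine ⟨σ', hσ', fun δ hδ => ?_⟩
      rcases lt_or_ge δ γ with hl | hl
      · exact hlt δ hl
      · exact absurd (aliveO_mono G' hl hδ) hn
  refine ⟨σ', v', hσ', fun γ => ?_⟩
  rw [hv' γ]
  exact ⟨Or.inr, fun hh => hh.elim (hs γ) id⟩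

/-- OR step -/
theorem or_step {G G' : Game}
    (hA : ∀ p : G.A, ∃ p' : G'.A, ∀ γ, G.AliveA γ p ↔ G'.AliveA γ p')
    {σ v : G.O} {σ' v' : G'.O}
    (h : ∀ γ, (G.AliveO γ σ ∨ G.AliveO γ v) → (G'.AliveO γ σ' ∨ G'.AliveO γ v'))
    {q u : G.A} (hq : G.R σ q ∨ G.R v q) :
    ∃ q' u' : G'.A, (G'.R σ' q' ∨ G'.R v' q') ∧
      ∀ γ, (G.AliveA γ q ∧ G.AliveA γ u) ↔ (G'.AliveA γ q' ∧ G'.AliveA γ u') := by
  obtain ⟨u', hu'⟩ : ∃ u' : G'.A, ∀ γ, (G.AliveA γ q ∧ G.AliveA γ u) ↔ G'.AliveA γ u' := by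
    rcases comparable (P := fun γ => G.AliveA γ q) (Q := fun γ => G.AliveA γ u)
      (fun a b hab hb => aliveA_mono G hab hb) (fun a b hab hb => aliveA_mono G hab hb) with hc | hc
    · obtain ⟨u', hu'⟩ := hA q
      exact ⟨u', fun γ => ⟨fun hh => (hu' γ).1 hh.1,
        fun hh => ⟨(hu' γ).2 hh, hc γ ((hu' γ).2 hh)⟩⟩⟩
    · obtain ⟨u', hu'⟩ := hA u
      exact ⟨u', fun γ => ⟨fun hh => (hu' γ).1 hh.2,
        fun hh => ⟨hc γ ((hu' γ).2 hh), (hu' γ).2 hh⟩⟩⟩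
  obtain ⟨q', hq', hs⟩ : ∃ q' : G'.A, (G'.R σ' q' ∨ G'.R v' q') ∧
      ∀ γ, G'.AliveA γ u' → G'.AliveA γ q' := by
    by_contra hc
    push Not at hc
    have hc' : ∀ q' : G'.A, ∃ γ, G'.AliveA γ u' ∧ ((G'.R σ' q' ∨ G'.R v' q') → ¬ G'.AliveA γ q') := by
      intro q'
      by_cases hr : G'.R σ' q' ∨ G'.R v' q'
      · obtain ⟨γ, h1, h2⟩ := hc q' hr
        exact ⟨γ, h1, fun _ => h2⟩
      · exact ⟨0, aliveA_zero G' u', fun h => absurd h hr⟩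
    choose g hg1 hg2 using hc'
    have hsup := aliveA_iSup G' u' g hg1
    have hle : ∀ i, g i ≤ ⨆ i, g i := fun i => Ordinal.le_iSup g i
    have h1 := (hu' _).2 hsup
    have h2 : G.AliveO (Order.succ (⨆ i, g i)) σ ∨ G.AliveO (Order.succ (⨆ i, g i)) v := by
      rcases hq with hq | hq
      · exact Or.inl (aliveO_succ G hq h1.1)
      · exact Or.inr (aliveO_succ G hq h1.1)
    rcases h _ h2 with h3 | h3
    · obtain ⟨q', hr, hq'⟩ := (aliveO_iff G' _ _).1 h3 _ (Order.lt_succ _)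
      exact hg2 q' (Or.inl hr) (aliveA_mono G' (hle q') hq')
    · obtain ⟨q', hr, hq'⟩ := (aliveO_iff G' _ _).1 h3 _ (Order.lt_succ _)
      exact hg2 q' (Or.inr hr) (aliveA_mono G' (hle q') hq')
  refine ⟨q', u', hq', fun γ => ?_⟩
  rw [hu' γ]
  exact ⟨fun hh => ⟨hs γ hh, hh⟩, fun hh => hh.2⟩

/-- the relation -/
def rel (G G' : Game) : NS G.A G.O → NS G'.A G'.O → Prop
  | .a p u, .a p' u' => ∀ γ, (G.AliveA γ p ∧ G.AliveA γ u) ↔ (G'.AliveA γ p' ∧ G'.AliveA γ u')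
  | .o σ v, .o σ' v' => ∀ γ, (G.AliveO γ σ ∨ G.AliveO γ v) ↔ (G'.AliveO γ σ' ∨ G'.AliveO γ v')
  | _, _ => False

theorem t_normB : StNormB := by
  intro G G' hne hne' hS p u p' u' h
  refine ⟨rel G G', ?_, h⟩
  intro a b hab
  match a, b, hab with
  | .a p u, .a p' u', hab =>
    refine ⟨rfl, ?_, ?_⟩
    · intro a' ha'
      match a', ha' with
      | .o σ v, hσ =>
        obtain ⟨σ', v', h1, h2⟩ := and_step hne' hS.O1 (fun γ hγ => (hab γ).2 hγ) (v := v) hσ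
        exact ⟨.o σ' v', h1, h2⟩
    · intro b' hb'
      match b', hb' with
      | .o σ' v', hσ' =>
        obtain ⟨σ, v, h1, h2⟩ := and_step hne
          (fun p' => (hS.O2 p').imp fun p hp γ => (hp γ).symm) (fun γ hγ => (hab γ).1 hγ)
          (v := v') hσ'
        exact ⟨.o σ v, h1, fun γ => (h2 γ).symm⟩
  | .o σ v, .o σ' v', hab =>
    refine ⟨rfl, ?_, ?_⟩
    · intro a' ha'
      match a', ha' with
      | .a q u, hq =>
        obtain ⟨q', u', h1, h2⟩ := or_step hS.A1 (fun γ hγ => (hab γ).1 hγ) (u := u) hq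
        exact ⟨.a q' u', h1, h2⟩
    · intro b' hb'
      match b', hb' with
      | .a q' u', hq' =>
        obtain ⟨q, u, h1, h2⟩ := or_step
          (fun p' => (hS.A2 p').imp fun p hp γ => (hp γ).symm) (fun γ hγ => (hab γ).2 hγ)
          (u := u') hq'
        exact ⟨.a q u, h1, fun γ => (h2 γ).symm⟩

theorem one_dir {G G' : Game} {R : NS G.A G.O → NS G'.A G'.O → Prop}
    (hR : IsBis nlab nlab G.nch G'.nch R) (γ : Ordinal.{0}) :
    ∀ (p u : G.A) (p' u' : G'.A), R (.a p u) (.a p' u') →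
      (G'.AliveA γ p' ∧ G'.AliveA γ u') → (G.AliveA γ p ∧ G.AliveA γ u) := by
  induction γ using WellFoundedLT.induction with
  | ind γ ih =>
    intro p u p' u' hr hal
    have key : ∀ σ, (G.C p σ ∨ G.C u σ) → G.AliveO γ σ := by
      intro σ hσ
      rw [aliveO_iff]
      intro δ hδ
      obtain ⟨b', hb', hb2⟩ := (hR _ _ hr).2.1 (.o σ σ) hσ
      match b', hb', hb2 with
      | .o σ' v', hσ', hr2 =>
        have h1 : G'.AliveO γ σ' := by
          rcases hσ' with hσ' | hσ'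
          · exact hal.1 σ' hσ'
          · exact hal.2 σ' hσ'
        obtain ⟨q', hq', hal'⟩ := (aliveO_iff G' _ _).1 h1 δ hδ
        obtain ⟨a', ha', ha2⟩ := (hR _ _ hr2).2.2 (.a q' q') (Or.inl hq')
        match a', ha', ha2 with
        | .a q u2, hq, hr3 =>
          exact ⟨q, hq.elim id id, (ih δ hδ q u2 q' q' hr3 ⟨hal', hal'⟩).1⟩
    exact ⟨fun τ hτ => key τ (Or.inl hτ), fun τ hτ => key τ (Or.inr hτ)⟩

theorem t_normN : StNormN := by
  rintro G G' p u p' u' ⟨R, hR, hr⟩ γ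
  refine ⟨?_, one_dir hR γ p u p' u' hr⟩
  refine one_dir (G := G') (G' := G) (R := fun x y => R y x) ?_ γ p' u' p u hr
  intro a b hab
  obtain ⟨h1, h2, h3⟩ := hR b a hab
  exact ⟨h1.symm, fun a' ha' => h3 a' ha', fun b' hb' => h2 b' hb'⟩

end Pool.Agent.W374.CBN
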