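import Pool.Agent.W374.CB.Norm

/-!
# Three phase games
-/

namespace Pool.Agent.W374.CBN
open Set Pool.Agent.W919.CB

section
variable (U : Game) (I J : Type) (val : I → Prop) (res : I → J → Prop) (leaf : I → J → U.O → Prop)

theorem three_base_iff (γ : Ordinal.{0}) :
    (∀ σ : U.O, (three U I J val res leaf).AliveO γ (.base σ) ↔ U.AliveO γ σ) := by
  induction γ using WellFoundedLT.induction with
  | ind γ ih =>
    intro σ
    refine (aliveO_iff (three U I J val res leaf) γ (.base σ)).trans ?_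
    rw [aliveO_iff]
    constructor
    · intro h δ hδ
      obtain ⟨q, hq, hal⟩ := h δ hδ
      match q, hq, hal with
      | .base q, hq, hal =>
        exact ⟨q, hq, fun τ hτ => (ih δ hδ τ).1 (hal (.base τ) hτ)⟩
    · intro h δ hδ
      obtain ⟨q, hq, hal⟩ := h δ hδ
      refine ⟨.base q, hq, ?_⟩
      intro τ hτ
      match τ, hτ with
      | .base τ, hτ => exact (ih δ hδ τ).2 (hal τ hτ)

theorem three_baseA_iff (γ : Ordinal.{0}) (p : U.A) :
    (three U I J val res leaf).AliveA γ (.base p) ↔ U.AliveA γ p := by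
  constructor
  · intro h τ hτ
    exact (three_base_iff U I J val res leaf γ τ).1 (h (.base τ) hτ)
  · intro h τ hτ
    match τ, hτ with
    | .base τ, hτ => exact (three_base_iff U I J val res leaf γ τ).2 (h τ hτ)

theorem three_d_iff (γ : Ordinal.{0}) :
    (three U I J val res leaf).AliveO γ .d ↔
      ∀ δ < γ, (three U I J val res leaf).AliveA δ .root := by
  refine (aliveO_iff (three U I J val res leaf) γ .d).trans ?_
  constructor
  · intro h δ hδ
    obtain ⟨q, hq, hal⟩ := h δ hδ
    match q, hq, hal with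
    | .root, _, hal => exact hal
  · intro h δ hδ
    exact ⟨.root, trivial, h δ hδ⟩

theorem three_sig_iff' (γ : Ordinal.{0}) (i : I) :
    (three U I J val res leaf).AliveO γ (.sig i) ↔
      ∀ δ < γ, val i ∧ ∃ j, res i j ∧ (three U I J val res leaf).AliveA δ (.pos i j) := by
  refine (aliveO_iff (three U I J val res leaf) γ (.sig i)).trans ?_
  constructor
  · intro h δ hδ
    obtain ⟨q, hq, hal⟩ := h δ hδ
    match q, hq, hal with
    | .pos i' j, hq, hal =>
      obtain ⟨h1, h2, h3⟩ := hq
      subst h1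
      exact ⟨h2, j, h3, hal⟩
  · intro h δ hδ
    obtain ⟨h1, j, h2, hal⟩ := h δ hδ
    exact ⟨.pos i j, ⟨rfl, h1, h2⟩, hal⟩

theorem three_root_iff' (γ : Ordinal.{0}) :
    (three U I J val res leaf).AliveA γ .root ↔
      (three U I J val res leaf).AliveO γ .d ∧
        ∀ i, val i → (three U I J val res leaf).AliveO γ (.sig i) := by
  constructor
  · intro h
    exact ⟨h .d trivial, fun i hi => h (.sig i) hi⟩
  · rintro ⟨h1, h2⟩ τ hτ
    match τ, hτ with
    | .d, _ => exact h1
    | .sig i, hi => exact h2 i hi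

theorem three_pos_iff (γ : Ordinal.{0}) (i : I) (j : J) :
    (three U I J val res leaf).AliveA γ (.pos i j) ↔
      (∀ ω, leaf i j ω → U.AliveO γ ω) ∧ (three U I J val res leaf).AliveA γ .root := by
  constructor
  · intro h
    refine ⟨fun ω hω => (three_base_iff U I J val res leaf γ ω).1 (h (.base ω) hω), ?_⟩
    rw [three_root_iff']
    exact ⟨h .d trivial, fun i hi => h (.sig i) hi⟩
  · rintro ⟨h1, h2⟩ τ hτ
    rw [three_root_iff'] at h2
    match τ, hτ with
    | .base ω, hω => exact (three_base_iff U I J val res leaf γ ω).2 (h1 ω hω)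
    | .d, _ => exact h2.1
    | .sig i, hi => exact h2.2 i hi

theorem gam_mono {γ γ' : Ordinal.{0}} (h : γ ≤ γ') (hg : Gam U val res leaf γ') :
    Gam U val res leaf γ := fun i hi δ hδ => hg i hi δ (hδ.trans_le h)

theorem three_root_iff (γ : Ordinal.{0}) :
    (three U I J val res leaf).AliveA γ .root ↔ Gam U val res leaf γ := by
  induction γ using WellFoundedLT.induction with
  | ind γ ih =>
    rw [three_root_iff', three_d_iff]
    constructor
    · rintro ⟨_, h2⟩ i hi δ hδ
      obtain ⟨_, j, hj, hp⟩ := (three_sig_iff' U I J val res leaf γ i).1 (h2 i hi) δ hδ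
      exact ⟨j, hj, ((three_pos_iff U I J val res leaf δ i j).1 hp).1⟩
    · intro h
      have hr : ∀ δ < γ, (three U I J val res leaf).AliveA δ .root := fun δ hδ =>
        (ih δ hδ).2 (gam_mono U I J val res leaf hδ.le h)
      refine ⟨hr, fun i hi => ?_⟩
      rw [three_sig_iff']
      intro δ hδ
      obtain ⟨j, hj, hl⟩ := h i hi δ hδ
      exact ⟨hi, j, hj, (three_pos_iff U I J val res leaf δ i j).2 ⟨hl, hr δ hδ⟩⟩

theorem three_sig_iff (γ : Ordinal.{0}) (i : I) :
    (three U I J val res leaf).AliveO γ (.sig i) ↔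
      ∀ δ < γ, val i ∧ Gam U val res leaf δ ∧ ∃ j, res i j ∧ ∀ ω, leaf i j ω → U.AliveO δ ω := by
  rw [three_sig_iff']
  constructor
  · intro h δ hδ
    obtain ⟨h1, j, hj, hp⟩ := h δ hδ
    rw [three_pos_iff, three_root_iff] at hp
    exact ⟨h1, hp.2, j, hj, hp.1⟩
  · intro h δ hδ
    obtain ⟨h1, hg, j, hj, hp⟩ := h δ hδ
    refine ⟨h1, j, hj, ?_⟩
    rw [three_pos_iff, three_root_iff]
    exact ⟨hp, hg⟩

theorem three_ne (hU : Good U) (p : (three U I J val res leaf).A) :
    ∃ σ, (three U I J val res leaf).C p σ := by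
  match p with
  | .base p =>
    obtain ⟨σ, hσ⟩ := hU.ne p
    exact ⟨.base σ, hσ⟩
  | .root => exact ⟨.d, trivial⟩
  | .pos i j => exact ⟨.d, trivial⟩

/-- the rank of `sig i` (valid) is the rank of the root or the rank of `d` -/
theorem three_sig_cases (i : I) (hi : val i) :
    (∀ γ, (three U I J val res leaf).AliveO γ (.sig i) ↔ Gam U val res leaf γ) ∨
    (∀ γ, (three U I J val res leaf).AliveO γ (.sig i) ↔ ∀ δ < γ, Gam U val res leaf δ) := by
  by_cases h : ∀ γ, (∀ δ < γ, Gam U val res leaf δ) → (three U I J val res leaf).AliveO γ (.sig i)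
  · right
    intro γ
    refine ⟨fun hh δ hδ => ?_, h γ⟩
    rw [three_sig_iff] at hh
    exact (hh δ hδ).2.1
  · left
    push Not at h
    obtain ⟨γ₀, h1, h2⟩ := h
    intro γ
    constructor
    · intro hγ
      have hlt : γ < γ₀ := by
        by_contra hc
        exact h2 (aliveO_mono _ (not_lt.1 hc) hγ)
      exact h1 γ hlt
    · intro hγ
      rw [three_sig_iff]
      intro δ hδ
      exact ⟨hi, gam_mono U I J val res leaf hδ.le hγ, hγ i hi δ hδ⟩

end

theorem t_three : StThree := by
  intro U I J val res leaf hU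
  exact ⟨three_root_iff U I J val res leaf, three_ne U I J val res leaf hU⟩

section
variable {U U' : Game} {I J I' J' : Type} {val : I → Prop} {res : I → J → Prop}
    {leaf : I → J → U.O → Prop} {val' : I' → Prop} {res' : I' → J' → Prop}
    {leaf' : I' → J' → U'.O → Prop}

theorem sameA (hU : Good U)
    (hA : ∀ p : U.A, ∃ p' : U'.A, ∀ γ, U.AliveA γ p ↔ U'.AliveA γ p')
    (hG : ∀ γ, Gam U val res leaf γ ↔ Gam U' val' res' leaf' γ)
    (p : (three U I J val res leaf).A) : ∃ p' : (three U' I' J' val' res' leaf').A,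
      ∀ γ, (three U I J val res leaf).AliveA γ p ↔
        (three U' I' J' val' res' leaf').AliveA γ p' := by
  match p with
  | .base p =>
    obtain ⟨p', hp'⟩ := hA p
    refine ⟨.base p', fun γ => ?_⟩
    rw [three_baseA_iff, three_baseA_iff]
    exact hp' γ
  | .root =>
    refine ⟨.root, fun γ => ?_⟩
    rw [three_root_iff, three_root_iff]
    exact hG γ
  | .pos i j =>
    by_cases h : ∀ γ, Gam U val res leaf γ → ∀ ω, leaf i j ω → U.AliveO γ ω
    · refine ⟨.root, fun γ => ?_⟩
      rw [three_pos_iff, three_root_iff, three_root_iff, ← hG γ]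
      exact ⟨fun hh => hh.2, fun hh => ⟨h γ hh, hh⟩⟩
    · push Not at h
      obtain ⟨γ₁, hγ₁, ω₁, hω₁, hn₁⟩ := h
      obtain ⟨γ₀, hγ₀, hlt⟩ := least (P := fun γ => ∀ ω, leaf i j ω → U.AliveO γ ω)
        ⟨γ₁, fun hh => hn₁ (hh ω₁ hω₁)⟩
      push Not at hγ₀
      obtain ⟨ω, hω, hn⟩ := hγ₀
      have hle : γ₀ ≤ γ₁ := by
        by_contra hc
        exact hn₁ (hlt γ₁ (not_le.1 hc) ω₁ hω₁)
      obtain ⟨q, hq⟩ := hU.sing ω
      obtain ⟨q', hq'⟩ := hA q
      refine ⟨.base q', fun γ => ?_⟩
      rw [three_pos_iff, three_root_iff, three_baseA_iff, ← hq' γ, hq γ]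
      constructor
      · intro hh
        exact hh.1 ω hω
      · intro hh
        have hγ : γ < γ₀ := by
          by_contra hc
          exact hn (aliveO_mono U (not_lt.1 hc) hh)
        exact ⟨hlt γ hγ, gam_mono U I J val res leaf (hγ.le.trans hle) hγ₁⟩

theorem sameO (hU' : Good U')
    (hO : ∀ p : U.O, ∃ p' : U'.O, ∀ γ, U.AliveO γ p ↔ U'.AliveO γ p')
    (hG : ∀ γ, Gam U val res leaf γ ↔ Gam U' val' res' leaf' γ)
    (p : (three U I J val res leaf).O) : ∃ p' : (three U' I' J' val' res' leaf').O,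
      ∀ γ, (three U I J val res leaf).AliveO γ p ↔
        (three U' I' J' val' res' leaf').AliveO γ p' := by
  have hd : ∀ p : (three U I J val res leaf).O,
      (∀ γ, (three U I J val res leaf).AliveO γ p ↔ ∀ δ < γ, Gam U val res leaf δ) →
      ∃ p' : (three U' I' J' val' res' leaf').O,
      ∀ γ, (three U I J val res leaf).AliveO γ p ↔
        (three U' I' J' val' res' leaf').AliveO γ p' := by
    intro p hp
    refine ⟨.d, fun γ => ?_⟩
    rw [hp γ, three_d_iff]
    exact forall₂_congr fun δ _ => by rw [three_root_iff]; exact hG δ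
  match p with
  | .base p =>
    obtain ⟨p', hp'⟩ := hO p
    refine ⟨.base p', fun γ => ?_⟩
    rw [three_base_iff, three_base_iff]
    exact hp' γ
  | .d =>
    refine hd .d fun γ => ?_
    rw [three_d_iff]
    exact forall₂_congr fun δ _ => by rw [three_root_iff]
  | .sig i =>
    by_cases hi : val i
    · rcases three_sig_cases U I J val res leaf i hi with hc | hc
      · by_cases hall : ∀ γ, Gam U val res leaf γ
        · exact hd (.sig i) fun γ => by rw [hc γ]; exact ⟨fun _ δ _ => hall δ, fun _ => hall γ⟩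
        · obtain ⟨γ₀, hγ₀, hlt⟩ := least (P := fun γ => Gam U val res leaf γ) (not_forall.1 hall)
          have hγ₀' : ¬ Gam U' val' res' leaf' γ₀ := fun hh => hγ₀ ((hG γ₀).2 hh)
          unfold Gam at hγ₀'
          push Not at hγ₀'
          obtain ⟨i', hi', δ, hδ, hj⟩ := hγ₀'
          refine ⟨.sig i', fun γ => ?_⟩
          rcases three_sig_cases U' I' J' val' res' leaf' i' hi' with hc' | hc'
          · rw [hc γ, hc' γ]
            exact hG γ
          · exfalso
            have h1 := (hc' γ₀).2 fun δ hδ => (hG δ).1 (hlt δ hδ)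
            rw [three_sig_iff] at h1
            obtain ⟨_, _, j, hj1, hj2⟩ := h1 δ hδ
            obtain ⟨ω, hω, hω'⟩ := hj j hj1
            exact hω' (hj2 ω hω)
      · exact hd (.sig i) hc
    · obtain ⟨σ, hσ⟩ := hU'.dead
      refine ⟨.base σ, fun γ => ?_⟩
      rw [three_sig_iff, three_base_iff, aliveO_iff]
      constructor
      · intro h δ hδ
        exact absurd (h δ hδ).1 hi
      · intro h δ hδ
        obtain ⟨q, hq, _⟩ := h δ hδ
        exact absurd hq (hσ q)

end

theorem t_threesame : StThreeSame := by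
  intro U U' I J I' J' val res leaf val' res' leaf' hU hU' hS hG
  refine ⟨sameA hU hS.A1 hG, ?_, sameO hU' hS.O1 hG, ?_⟩
  · intro p'
    obtain ⟨p, hp⟩ := sameA hU' (fun p' => (hS.A2 p').imp fun p hp γ => (hp γ).symm)
      (fun γ => (hG γ).symm) p'
    exact ⟨p, fun γ => (hp γ).symm⟩
  · intro p'
    obtain ⟨p, hp⟩ := sameO hU (fun p' => (hS.O2 p').imp fun p hp γ => (hp γ).symm)
      (fun γ => (hG γ).symm) p'
    exact ⟨p, fun γ => (hp γ).symm⟩

end Pool.Agent.W374.CBN
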